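import Pool.Agent.H27.Bk3

set_option autoImplicit false

namespace Pool.Agent.Results.MP_894476_an.ErgLDP

open MeasureTheory Pool.Agent.H27.Bk

/-- The Lebesgue differentiation property alone gives the joint ergodic differentiation theorem
for `L^p` functions, `p > 1`. -/
theorem result (X : Type) [MetricSpace X] [MeasurableSpace X] [BorelSpace X] (μ : Measure X)
    [IsProbabilityMeasure μ] (hμ : LDP μ) (T : X → X) (hT : MeasurePreserving T μ μ)
    (p : ℝ) (hp : 1 < p) (f : X → ℝ) (fp : MemLp f (ENNReal.ofReal p) μ) :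
    ∀ᵐ x ∂μ, ∀ ε : ℝ, 0 < ε → ∃ δ : ℝ, 0 < δ ∧ ∃ K : ℕ, ∀ r : ℝ, 0 < r → r < δ → ∀ k : ℕ, K ≤ k →
      |avg μ x r (fun y => birkhoffAverage ℝ T f k y) -
        (μ[f | MeasurableSpace.invariants T]) x| < ε :=
  main μ hμ T hT p hp f fp

end Pool.Agent.Results.MP_894476_an.ErgLDP
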